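import Mathlib
import Pool.Agent.Run7.h257.Final

/-!
For every `k ≥ 1` the base `a = 2 ^ k` has infinitely many exponents `m` for which `a ^ m - 1` has
a primitive prime factor dividing it exactly once.
-/

namespace Pool.Agent.Run7.h483.Old.PowersOfTwo

theorem result : ∀ k : ℕ, 1 ≤ k →
    {m : ℕ | 1 ≤ m ∧ ∃ p : ℕ, p.Prime ∧ p ∣ (2 ^ k) ^ m - 1 ∧
      (∀ j : ℕ, 1 ≤ j → j < m → ¬ p ∣ (2 ^ k) ^ j - 1) ∧ ¬ p ^ 2 ∣ (2 ^ k) ^ m - 1}.Infinite := by
  intro k hk
  refine Set.infinite_of_forall_exists_gt fun B => ?_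
  have h0 := Run7.h257.not_wief ((2 ^ k) ^ (B + 7) + k)
  unfold Run7.h257.Wief at h0
  push Not at h0
  obtain ⟨p, hp, hB, hnd⟩ := h0
  haveI : Fact p.Prime := ⟨hp⟩
  have ha1 : 2 ≤ 2 ^ k := by
    calc 2 = 2 ^ 1 := by norm_num
      _ ≤ 2 ^ k := Nat.pow_le_pow_right (by norm_num) hk
  set a : ℕ := 2 ^ k with ha
  have hp2 : 2 < p := by
    have : 2 ^ 7 ≤ a ^ (B + 7) :=
      (Nat.pow_le_pow_left ha1 7).trans (Nat.pow_le_pow_right (by omega) (by omega))
    omega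
  have hpk : ¬ p ∣ k := fun h => by
    have := Nat.le_of_dvd (by omega) h
    omega
  have key : ∀ m : ℕ, p ∣ a ^ m - 1 ↔ (a : ZMod p) ^ m = 1 := by
    intro m
    have h1 : 1 ≤ a ^ m := Nat.one_le_pow _ _ (by omega)
    rw [← CharP.cast_eq_zero_iff (ZMod p) p, Nat.cast_sub h1]
    push_cast
    exact sub_eq_zero
  have hodd : Odd p := hp.odd_of_ne_two (by omega)
  have hp_not2 : ¬ p ∣ 2 := fun h => by
    have := Nat.le_of_dvd (by norm_num) h
    omega
  have ha0 : (a : ZMod p) ≠ 0 := by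
    intro hc
    rw [CharP.cast_eq_zero_iff (ZMod p) p] at hc
    exact hp_not2 (hp.dvd_of_dvd_pow hc)
  have hflt : (a : ZMod p) ^ (p - 1) = 1 := ZMod.pow_card_sub_one_eq_one ha0
  have hpos : 0 < orderOf (a : ZMod p) := by
    apply orderOf_pos_iff.mpr
    exact isOfFinOrder_iff_pow_eq_one.mpr ⟨p - 1, by omega, hflt⟩
  have hdvd : orderOf (a : ZMod p) ∣ p - 1 := orderOf_dvd_of_pow_eq_one hflt
  set n := orderOf (a : ZMod p) with hn
  have hpn : p ∣ a ^ n - 1 := (key n).mpr (pow_orderOf_eq_one _)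
  have hne : a ^ n - 1 ≠ 0 := by
    have : a ^ 1 ≤ a ^ n := Nat.pow_le_pow_right (by omega) hpos
    rw [pow_one] at this
    omega
  have hle : p ≤ a ^ n - 1 := Nat.le_of_dvd (by omega) hpn
  have hlt : B + 7 < n := by
    have : a ^ (B + 7) < a ^ n := by omega
    exact (Nat.pow_lt_pow_iff_right (by omega)).mp this
  refine ⟨n, ⟨by omega, p, hp, hpn, ?_, ?_⟩, by omega⟩
  · intro m h1 hm hc
    have := orderOf_dvd_of_pow_eq_one ((key m).mp hc)
    have := Nat.le_of_dvd (by omega) this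
    omega
  · intro h2
    apply hnd
    have h3 : p ^ 2 ∣ a ^ (p - 1) - 1 := h2.trans (Nat.pow_sub_one_dvd_pow_sub_one a hdvd)
    -- `2 ^ (k (p-1)) - 1` has the same valuation as `2 ^ (p-1) - 1`
    have h4 : a ^ (p - 1) = (2 ^ (p - 1)) ^ k := by
      rw [ha, ← pow_mul, ← pow_mul, mul_comm]
    have h20 : (2 : ZMod p) ≠ 0 := by
      have : ((2 : ℕ) : ZMod p) ≠ 0 := by
        intro hc
        rw [CharP.cast_eq_zero_iff (ZMod p) p] at hc
        exact hp_not2 hc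
      simpa using this
    have hflt2 : (2 : ZMod p) ^ (p - 1) = 1 := ZMod.pow_card_sub_one_eq_one h20
    have hp21 : p ∣ 2 ^ (p - 1) - 1 := by
      rw [← CharP.cast_eq_zero_iff (ZMod p) p, Nat.cast_sub Nat.one_le_two_pow]
      push_cast
      rw [hflt2, sub_self]
    have hn2 : ¬ p ∣ 2 ^ (p - 1) := fun h => hp_not2 (hp.dvd_of_dvd_pow h)
    have hgt : 1 < 2 ^ (p - 1) := Nat.one_lt_two_pow (by omega)
    have h5 := padicValNat.pow_sub_pow (p := p) (hyx := hgt) hodd hp21 hn2 (n := k) (by omega)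
    rw [one_pow, padicValNat.eq_zero_of_not_dvd hpk, add_zero, ← h4] at h5
    have hne2 : 2 ^ (p - 1) - 1 ≠ 0 := by omega
    have hne3 : a ^ (p - 1) - 1 ≠ 0 := by
      have : a ^ 1 ≤ a ^ (p - 1) := Nat.pow_le_pow_right (by omega) (by omega)
      rw [pow_one] at this
      omega
    rw [padicValNat_dvd_iff_le hne3, h5] at h3
    exact (padicValNat_dvd_iff_le hne2).mpr h3

end Pool.Agent.Run7.h483.Old.PowersOfTwo
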